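import Pool.Agent.Helper38.WM.St

/-! # Project WM (MP_b731ff_al), module REC: recursion for dimensions -/

set_option autoImplicit false

namespace Pool.Agent.Helper45.WM

open Pool.Agent.Helper38.WM

private theorem fold_le {K W α : Type*} [Field K] [AddCommGroup W] [Module K W]
    [Module.Finite K W] (Q : α → Submodule K W) (b : α → ℕ) (R0 : Submodule K W) :
    ∀ l : List α, (∀ a ∈ l, Module.finrank K (Q a) ≤ b a) →
      Module.finrank K (l.foldr (fun a acc => Q a ⊔ acc) R0 : Submodule K W) ≤
        Module.finrank K R0 + (l.map b).sum := by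
  intro l
  induction l with
  | nil =>
    intro _
    rw [List.foldr_nil, List.map_nil, List.sum_nil, Nat.add_zero]
  | cons a l ih =>
    intro h
    have h1 := ih (fun x hx => h x (List.mem_cons_of_mem _ hx))
    have h2 := h a List.mem_cons_self
    rw [List.foldr_cons, List.map_cons, List.sum_cons]
    have h3 := Submodule.finrank_add_le_finrank_add_finrank (Q a)
      (l.foldr (fun a acc => Q a ⊔ acc) R0)
    omega

private theorem le_fold {K W α : Type*} [Field K] [AddCommGroup W] [Module K W]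
    (Q : α → Submodule K W) (R0 : Submodule K W) :
    ∀ l : List α, R0 ≤ l.foldr (fun a acc => Q a ⊔ acc) R0 ∧
      ∀ a ∈ l, Q a ≤ l.foldr (fun a acc => Q a ⊔ acc) R0 := by
  intro l
  induction l with
  | nil =>
    refine ⟨le_refl _, ?_⟩
    intro a ha
    exact absurd ha List.not_mem_nil
  | cons a l ih =>
    rw [List.foldr_cons]
    refine ⟨ih.1.trans le_sup_right, ?_⟩
    intro x hx
    rcases List.mem_cons.1 hx with h | h
    · rw [h]; exact le_sup_left
    · exact (ih.2 x h).trans le_sup_right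

theorem hREC : Pool.Agent.Helper38.WM.StREC := by
  intro p hp S _ F w hw n
  set V : Subgroup S := Subgroup.closure {y | y ∈ w.map Prod.fst} with hV
  have hfn := F.fin n
  let Sp : Submodule (ZMod p) (GA p S) :=
    Submodule.span (ZMod p) ((fun g : S => el p g) '' (V : Set S))
  let Q : S × ℕ → Submodule (ZMod p) (GA p S ⧸ F.J n) := fun q =>
    Sp.map ((F.J n).mkQ ∘ₗ LinearMap.mulLeft (ZMod p) (el p q.1 - 1))
  have hQ : ∀ q ∈ w, Module.finrank (ZMod p) (Q q) ≤
      Module.finrank (ZMod p) (F.P V (n - q.2)) := by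
    intro q hq
    have hfq := F.fin (n - q.2)
    have hle : F.J (n - q.2) ≤
        (F.J n).comap (LinearMap.mulLeft (ZMod p) (el p q.1 - 1)) := by
      intro x hx
      rw [Submodule.mem_comap, LinearMap.mulLeft_apply]
      exact F.anti (by omega : n ≤ q.2 + (n - q.2)) (F.mul_mem (hw q hq) hx)
    have e : Q q = (F.P V (n - q.2)).map
        ((F.J (n - q.2)).mapQ (F.J n) (LinearMap.mulLeft (ZMod p) (el p q.1 - 1)) hle) := by
      show Sp.map ((F.J n).mkQ ∘ₗ LinearMap.mulLeft (ZMod p) (el p q.1 - 1)) =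
        (Sp.map (F.J (n - q.2)).mkQ).map _
      rw [← Submodule.map_comp, Submodule.mapQ_mkQ]
    rw [e]
    exact Submodule.finrank_map_le _ _
  set R : Submodule (ZMod p) (GA p S ⧸ F.J n) :=
    w.foldr (fun q acc => Q q ⊔ acc) (Submodule.span (ZMod p) {(F.J n).mkQ 1}) with hR
  have h1 : Module.finrank (ZMod p) R ≤ 1 + (w.map fun q => Module.finrank (ZMod p)
      (F.P V (n - q.2))).sum := by
    refine (fold_le Q _ _ w hQ).trans ?_
    have : Module.finrank (ZMod p) (Submodule.span (ZMod p) {(F.J n).mkQ (1 : GA p S)}) ≤ 1 := by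
      by_cases h0 : (F.J n).mkQ (1 : GA p S) = 0
      · rw [h0, Submodule.span_zero_singleton, finrank_bot]
        exact Nat.zero_le _
      · rw [finrank_span_singleton h0]
    omega
  obtain ⟨hR0, hRQ⟩ := le_fold Q (Submodule.span (ZMod p) {(F.J n).mkQ (1 : GA p S)}) w
  have hSp : ∀ v ∈ V, el p v ∈ Sp := fun v hv =>
    Submodule.subset_span ⟨v, hv, rfl⟩
  have hmem : ∀ v ∈ V, (F.J n).mkQ (el p v) ∈ R := by
    intro v hv
    refine Subgroup.closure_induction_left
      (p := fun v _ => (F.J n).mkQ (el p v) ∈ R) ?_ ?_ ?_ hv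
    · have e1 : el p (1 : S) = 1 := by rw [el, map_one]
      rw [e1]
      exact hR0 (Submodule.subset_span rfl)
    · intro x hx y hy ih
      obtain ⟨q, hq, rfl⟩ := List.mem_map.1 (show x ∈ w.map Prod.fst from hx)
      have e1 : el p (q.1 * y) = el p y + (el p q.1 - 1) * el p y := by
        rw [el, map_mul]; noncomm_ring
      rw [e1, map_add]
      refine Submodule.add_mem _ ih (hRQ q hq ?_)
      exact ⟨el p y, hSp y hy, rfl⟩
    · intro x hx y hy ih
      obtain ⟨q, hq, rfl⟩ := List.mem_map.1 (show x ∈ w.map Prod.fst from hx)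
      have e1 : el p (q.1⁻¹ * y) = el p y - (el p q.1 - 1) * el p (q.1⁻¹ * y) := by
        have e2 : el p q.1 * el p (q.1⁻¹ * y) = el p y := by
          rw [el, el, el, ← map_mul, mul_inv_cancel_left]
        rw [sub_mul, e2, one_mul]
        abel
      rw [e1, map_sub]
      refine Submodule.sub_mem _ ih (hRQ q hq ?_)
      refine ⟨el p (q.1⁻¹ * y), hSp _ ?_, rfl⟩
      exact V.mul_mem (V.inv_mem (Subgroup.subset_closure hx)) hy
  have h2 : F.P V n ≤ R := by
    show Sp.map (F.J n).mkQ ≤ R
    rw [Submodule.map_le_iff_le_comap]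
    refine Submodule.span_le.2 ?_
    rintro _ ⟨v, hv, rfl⟩
    exact hmem v hv
  exact (Submodule.finrank_mono h2).trans h1

end Pool.Agent.Helper45.WM
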